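import Mathlib

namespace Pool.Agent.Results.MP_adc340_an.FixedPoints

/-- The Gauss map (with `1 / 0 = 0`, so `gauss 0 = 0`). -/
noncomputable def gauss (x : ℝ) : ℝ := Int.fract (1 / x)

/-- The partial quotient `a_{k+1}` of `x` in `[0, 1]`. -/
noncomputable def pq (x : ℝ) (k : ℕ) : ℕ := ⌊1 / gauss^[k] x⌋₊

/-- `a_1 + ... + a_{k+1}`. -/
noncomputable def psum (x : ℝ) (k : ℕ) : ℕ := ∑ i ∈ Finset.range (k + 1), pq x i

/-- The `(k+1)`-st term of Minkowski's series (`0` once the expansion has ended). -/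
noncomputable def term (x : ℝ) (k : ℕ) : ℝ :=
  if gauss^[k] x = 0 then 0 else 2 * (-1) ^ k * (1 / 2) ^ psum x k

/-- Minkowski's question mark function on `[0, 1]`. -/
noncomputable def qm (x : ℝ) : ℝ := ∑' k : ℕ, term x k

lemma gauss_mem {x : ℝ} : 0 ≤ gauss x ∧ gauss x < 1 :=
  ⟨Int.fract_nonneg _, Int.fract_lt_one _⟩

lemma gauss_zero : gauss 0 = 0 := by simp [gauss]

lemma term_zero_left (k : ℕ) : term 0 k = 0 := by
  have h : gauss^[k] 0 = 0 := by
    induction k with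
    | zero => rfl
    | succ k ih => rw [Function.iterate_succ_apply, gauss_zero, ih]
  simp [term, h]

lemma pq_zero_pos {x : ℝ} (h0 : 0 < x) (h1 : x ≤ 1) : 1 ≤ pq x 0 := by
  unfold pq
  simp only [Function.iterate_zero, id_eq]
  apply Nat.le_floor
  rw [Nat.cast_one, le_div_iff₀ h0]
  linarith

lemma psum_succ (x : ℝ) (k : ℕ) : psum x (k + 1) = pq x 0 + psum (gauss x) k := by
  unfold psum
  rw [Finset.sum_range_succ']
  rw [add_comm]
  rfl

lemma term_zero {x : ℝ} (h0 : x ≠ 0) : term x 0 = 2 * (1 / 2) ^ pq x 0 := by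
  simp [term, psum, h0]

lemma term_succ (x : ℝ) (k : ℕ) :
    term x (k + 1) = -((1 / 2) ^ pq x 0 * term (gauss x) k) := by
  unfold term
  rw [Function.iterate_succ_apply, psum_succ]
  split_ifs with h
  · simp
  · rw [pow_succ, pow_add]; ring

lemma abs_term_le (k : ℕ) : ∀ {x : ℝ}, 0 ≤ x → x ≤ 1 → |term x k| ≤ 2 * (1 / 2) ^ k := by
  induction k with
  | zero =>
    intro x h0 h1
    rcases eq_or_lt_of_le h0 with h | h
    · rw [← h, term_zero_left]; norm_num
    · rw [term_zero h.ne', abs_of_nonneg (by positivity)]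
      have : ((1 : ℝ) / 2) ^ pq x 0 ≤ 1 := pow_le_one₀ (by norm_num) (by norm_num)
      simpa using this
  | succ k ih =>
    intro x h0 h1
    rcases eq_or_lt_of_le h0 with h | h
    · rw [← h, term_zero_left]; simp
    · rw [term_succ, abs_neg, abs_mul, abs_of_nonneg (by positivity)]
      have h2 : ((1 : ℝ) / 2) ^ pq x 0 ≤ (1 / 2) ^ 1 :=
        pow_le_pow_of_le_one (by norm_num) (by norm_num) (pq_zero_pos h h1)
      have h3 := ih (x := gauss x) gauss_mem.1 gauss_mem.2.le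
      calc ((1 : ℝ) / 2) ^ pq x 0 * |term (gauss x) k| ≤ (1 / 2) ^ 1 * (2 * (1 / 2) ^ k) := by
            gcongr
        _ = 2 * (1 / 2) ^ (k + 1) := by ring

lemma summable_term {x : ℝ} (h0 : 0 ≤ x) (h1 : x ≤ 1) : Summable (term x) := by
  apply Summable.of_norm_bounded (g := fun k => 2 * ((1 : ℝ) / 2) ^ k)
  · exact (summable_geometric_of_lt_one (by norm_num) (by norm_num)).mul_left 2
  · intro k
    rw [Real.norm_eq_abs]
    exact abs_term_le k h0 h1

lemma qm_zero : qm 0 = 0 := by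
  unfold qm
  simp [term_zero_left]

/-- The functional equation `?(1/(a+y)) = 2^(-a) (2 - ?(y))`. -/
lemma qm_rec {x : ℝ} (h0 : 0 < x) (h1 : x ≤ 1) :
    qm x = (1 / 2) ^ pq x 0 * (2 - qm (gauss x)) := by
  unfold qm
  rw [(summable_term h0.le h1).tsum_eq_zero_add, term_zero h0.ne']
  simp only [term_succ]
  rw [tsum_neg, tsum_mul_left]
  ring

lemma pq_div {p q : ℕ} : pq ((p : ℝ) / q) 0 = q / p := by
  unfold pq
  simp only [Function.iterate_zero, id_eq, one_div, inv_div]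
  exact Nat.floor_div_eq_div q p

lemma gauss_div {p q : ℕ} : gauss ((p : ℝ) / q) = ((q % p : ℕ) : ℝ) / p := by
  unfold gauss
  rw [one_div, inv_div]
  exact Int.fract_div_natCast_eq_div_natCast_mod

lemma fib_step (a n : ℕ) : (a + 1) * Nat.fib (n + 2) + Nat.fib (n + 1) ≤ Nat.fib (n + a + 3) := by
  induction a with
  | zero =>
    have : Nat.fib (n + 3) = Nat.fib (n + 1) + Nat.fib (n + 2) := Nat.fib_add_two
    simp only [zero_add, one_mul, add_zero]
    omega
  | succ a ih =>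
    have h1 : Nat.fib (n + (a + 1) + 3) = Nat.fib (n + a + 2) + Nat.fib (n + a + 3) := by
      have : n + (a + 1) + 3 = (n + a + 2) + 2 := by ring
      rw [this, Nat.fib_add_two]
    have h2 : Nat.fib (n + 2) ≤ Nat.fib (n + a + 2) := Nat.fib_mono (by omega)
    rw [h1]
    nlinarith

/-- The value of `?` at a rational number. -/
lemma qm_rat (q : ℕ) : ∀ p : ℕ, 0 < p → p < q → Nat.Coprime p q →
    ∃ n m : ℕ, 1 ≤ n ∧ Odd m ∧ m ≤ 2 ^ n ∧ qm ((p : ℝ) / q) = m / 2 ^ n ∧
      p ≤ Nat.fib (n + 1) ∧ q ≤ Nat.fib (n + 2) := by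
  induction q using Nat.strong_induction_on with
  | _ q ih =>
    intro p hp hpq hc
    have hq : 0 < q := by omega
    have hx0 : (0 : ℝ) < (p : ℝ) / q := by positivity
    have hx1 : (p : ℝ) / q ≤ 1 := by
      rw [div_le_one (by positivity)]
      exact_mod_cast hpq.le
    rw [qm_rec hx0 hx1, pq_div, gauss_div]
    rcases Nat.eq_zero_or_pos (q % p) with hr | hr
    · have hdvd : p ∣ q := Nat.dvd_of_mod_eq_zero hr
      have hp1 : p = 1 := Nat.Coprime.eq_one_of_dvd hc hdvd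
      subst hp1
      refine ⟨q - 1, 1, by omega, odd_one, Nat.one_le_two_pow, ?_, ?_, ?_⟩
      · rw [hr, Nat.div_one, Nat.cast_zero, zero_div, qm_zero]
        obtain ⟨k, rfl⟩ : ∃ k, q = k + 1 := ⟨q - 1, by omega⟩
        simp only [Nat.add_sub_cancel]
        rw [pow_succ]
        rw [one_div_pow]
        push_cast
        ring
      · apply Nat.fib_pos.2
        omega
      · have h := fib_step (q - 2) 0
        have e1 : 0 + (q - 2) + 3 = q - 1 + 2 := by omega
        rw [e1] at h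
        have e2 : Nat.fib (0 + 2) = 1 := by decide
        have e3 : Nat.fib (0 + 1) = 1 := by decide
        rw [e2, e3] at h
        omega
    · have hrp : q % p < p := Nat.mod_lt _ hp
      have hc' : Nat.Coprime (q % p) p := by
        have := (Nat.coprime_iff_gcd_eq_one.1 hc)
        rw [Nat.gcd_rec] at this
        exact this
      obtain ⟨n, m, hn, hm, hmn, hv, h1, h2⟩ := ih p hpq (q % p) hr hrp hc'
      have ha : 1 ≤ q / p := Nat.div_pos hpq.le hp
      obtain ⟨a, hA⟩ : ∃ a, q / p = a + 1 := ⟨q / p - 1, by omega⟩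
      refine ⟨n + (q / p), 2 ^ (n + 1) - m, by omega, ?_, ?_, ?_, ?_, ?_⟩
      · have : Even (2 ^ (n + 1)) := by
          rw [pow_succ]; exact even_two.mul_left _
        have hle : m ≤ 2 ^ (n + 1) := hmn.trans (Nat.pow_le_pow_right (by norm_num) (by omega))
        exact Nat.Even.sub_odd hle this hm
      · have : 2 ^ (n + 1) ≤ 2 ^ (n + q / p) := Nat.pow_le_pow_right (by norm_num) (by omega)
        omega
      · have hle : m ≤ 2 ^ (n + 1) := hmn.trans (Nat.pow_le_pow_right (by norm_num) (by omega))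
        rw [hv, Nat.cast_sub hle]
        push_cast
        rw [pow_add, pow_succ, one_div_pow]
        field_simp
        rw [pow_add]
        ring
      · exact h2.trans (Nat.fib_mono (by omega))
      · have hq' : q = (a + 1) * p + q % p := by
          have := Nat.div_add_mod q p
          rw [hA] at this
          linarith [mul_comm p (a + 1)]
        have h3 := fib_step a n
        have e : n + q / p + 2 = n + a + 3 := by omega
        rw [e]
        calc q = (a + 1) * p + q % p := hq'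
          _ ≤ (a + 1) * Nat.fib (n + 2) + Nat.fib (n + 1) := by gcongr
          _ ≤ _ := h3

lemma fib_lt (n : ℕ) : Nat.fib (n + 4) < 2 ^ (n + 2) := by
  induction n with
  | zero => decide
  | succ n ih =>
    have h1 : Nat.fib (n + 1 + 4) = Nat.fib (n + 3) + Nat.fib (n + 4) := by
      have : n + 1 + 4 = (n + 3) + 2 := by ring
      rw [this, Nat.fib_add_two]
    have h2 : Nat.fib (n + 3) ≤ Nat.fib (n + 4) := Nat.fib_mono (by omega)
    rw [h1]
    have : 2 ^ (n + 1 + 2) = 2 * 2 ^ (n + 2) := by ring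
    omega

/-- The only rational fixed point in `(0, 1)` is `1/2`. -/
lemma rat_fixed {x : ℝ} (h0 : 0 < x) (h1 : x < 1) (hr : ¬ Irrational x) (hf : qm x = x) :
    x = 1 / 2 := by
  unfold Irrational at hr
  rw [not_not] at hr
  obtain ⟨r, rfl⟩ := hr
  have hr0 : 0 < r := by exact_mod_cast h0
  have hr1 : r < 1 := by exact_mod_cast h1
  have hnum : 0 < r.num := Rat.num_pos.2 hr0
  obtain ⟨p, hp⟩ : ∃ p : ℕ, r.num = p := ⟨r.num.toNat, by omega⟩
  have hlt : r.num < r.den := by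
    exact Rat.num_lt_denom_iff.2 hr1
  have hx : ((r : ℚ) : ℝ) = (p : ℝ) / (r.den : ℕ) := by
    rw [Rat.cast_def, hp, Int.cast_natCast]
  have hc : Nat.Coprime p r.den := by
    have := r.reduced
    rw [hp] at this
    simpa using this
  obtain ⟨n, m, hn, hm, -, hv, -, hq⟩ := qm_rat r.den p (by omega) (by omega) hc
  rw [hx] at hf ⊢
  rw [hf] at hv
  have hden : (0 : ℝ) < (r.den : ℕ) := by exact_mod_cast r.pos
  rw [div_eq_div_iff hden.ne' (by positivity)] at hv
  have hv' : p * 2 ^ n = m * r.den := by exact_mod_cast hv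
  have hcop : Nat.Coprime (2 ^ n) m := Nat.Coprime.pow_left _ (Nat.coprime_two_left.2 hm)
  have hdvd : 2 ^ n ∣ r.den := by
    apply hcop.dvd_of_dvd_mul_left
    rw [← hv']
    exact Dvd.intro_left _ rfl
  have hle : 2 ^ n ≤ r.den := Nat.le_of_dvd r.pos hdvd
  have hn1 : n = 1 := by
    by_contra hne
    obtain ⟨k, rfl⟩ : ∃ k, n = k + 2 := ⟨n - 2, by omega⟩
    have := fib_lt k
    have e4 : k + 2 + 2 = k + 4 := rfl
    rw [e4] at hq
    omega
  subst hn1
  have e3 : Nat.fib (1 + 2) = 2 := by decide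
  rw [e3] at hq
  have hd2 : r.den = 2 := by omega
  have hp1 : p = 1 := by omega
  rw [hd2, hp1]
  norm_num

lemma irr_gauss {x : ℝ} (hx : Irrational x) : Irrational (gauss x) := by
  unfold gauss
  rw [← Int.self_sub_floor, one_div]
  exact hx.inv.sub_intCast _

lemma pos_of_irr {x : ℝ} (h0 : 0 ≤ x) (hx : Irrational x) : 0 < x :=
  lt_of_le_of_ne h0 hx.ne_zero.symm

lemma lin (j : ℕ) : ∀ {x : ℝ}, 0 ≤ x → x ≤ 1 → Irrational x →
    ∃ α β : ℚ, |β| ≤ (1 / 2) ^ j ∧ qm x = α + β * qm (gauss^[j] x) := by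
  induction j with
  | zero =>
    intro x _ _ _
    exact ⟨0, 1, by norm_num, by simp⟩
  | succ j ih =>
    intro x h0 h1 hx
    have hp := pos_of_irr h0 hx
    obtain ⟨α, β, hβ, hv⟩ := ih gauss_mem.1 gauss_mem.2.le (irr_gauss hx)
    refine ⟨(1 / 2) ^ pq x 0 * (2 - α), -((1 / 2) ^ pq x 0 * β), ?_, ?_⟩
    · rw [abs_neg, abs_mul, abs_of_nonneg (by positivity)]
      have h2 : ((1 : ℚ) / 2) ^ pq x 0 ≤ (1 / 2) ^ 1 :=
        pow_le_pow_of_le_one (by norm_num) (by norm_num) (pq_zero_pos hp h1)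
      calc ((1 : ℚ) / 2) ^ pq x 0 * |β| ≤ (1 / 2) ^ 1 * (1 / 2) ^ j := by gcongr
        _ = (1 / 2) ^ (j + 1) := by ring
    · rw [qm_rec hp h1, hv, Function.iterate_succ_apply]
      push_cast
      ring

lemma iter_irr {x : ℝ} (hx : Irrational x) (j : ℕ) : Irrational (gauss^[j] x) := by
  induction j with
  | zero => exact hx
  | succ j ih => rw [Function.iterate_succ_apply']; exact irr_gauss ih

lemma iter_mem {x : ℝ} (h0 : 0 ≤ x) (h1 : x ≤ 1) (j : ℕ) :
    0 ≤ gauss^[j] x ∧ gauss^[j] x ≤ 1 := by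
  cases j with
  | zero => exact ⟨h0, h1⟩
  | succ j => rw [Function.iterate_succ_apply']; exact ⟨gauss_mem.1, gauss_mem.2.le⟩

/-- `?` is rational at irrational numbers with eventually periodic expansion. -/
lemma periodic_rat {x : ℝ} (h0 : 0 ≤ x) (h1 : x ≤ 1) (hx : Irrational x) {m n : ℕ}
    (hmn : m < n) (h : gauss^[m] x = gauss^[n] x) : ∃ r : ℚ, qm x = r := by
  obtain ⟨α, β, -, hv⟩ := lin m h0 h1 hx
  obtain ⟨k, rfl⟩ : ∃ k, n = k + 1 + m := ⟨n - m - 1, by omega⟩
  obtain ⟨g0, g1⟩ := iter_mem h0 h1 m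
  obtain ⟨γ, δ, hδ, hw⟩ := lin (k + 1) g0 g1 (iter_irr hx m)
  rw [← Function.iterate_add_apply, ← h] at hw
  have hδ1 : |δ| < 1 := lt_of_le_of_lt hδ (by
    calc ((1 : ℚ) / 2) ^ (k + 1) ≤ (1 / 2) ^ 1 :=
          pow_le_pow_of_le_one (by norm_num) (by norm_num) (by omega)
      _ < 1 := by norm_num)
  have hne : (1 - δ : ℚ) ≠ 0 := by
    have := (abs_lt.1 hδ1).2
    linarith
  have hne' : (1 - δ : ℝ) ≠ 0 := by exact_mod_cast hne
  have ht : qm (gauss^[m] x) = ((γ / (1 - δ) : ℚ) : ℝ) := by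
    push_cast
    rw [eq_div_iff hne']
    linear_combination hw
  refine ⟨α + β * (γ / (1 - δ)), ?_⟩
  rw [hv, ht]
  push_cast
  ring

lemma le_fib (s : ℕ) : s + 1 ≤ Nat.fib (s + 2) := by
  induction s with
  | zero => decide
  | succ s ih =>
    have h1 : Nat.fib (s + 1 + 2) = Nat.fib (s + 1) + Nat.fib (s + 2) := Nat.fib_add_two
    have h2 : 0 < Nat.fib (s + 1) := Nat.fib_pos.2 (by omega)
    omega

lemma gauss_eq {x : ℝ} (h0 : 0 < x) : x * (pq x 0 + gauss x) = 1 := by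
  have h : ((⌊1 / x⌋₊ : ℕ) : ℝ) = ((⌊1 / x⌋ : ℤ) : ℝ) :=
    natCast_floor_eq_intCast_floor (by positivity)
  have h2 : (pq x 0 : ℝ) = ((⌊1 / x⌋ : ℤ) : ℝ) := by
    rw [← h]; rfl
  have h3 : gauss x = 1 / x - ((⌊1 / x⌋ : ℤ) : ℝ) := by
    unfold gauss; rw [Int.self_sub_floor]
  rw [h2, h3]
  field_simp
  ring

lemma qm_rec' {x : ℝ} (h0 : 0 < x) (h1 : x ≤ 1) :
    qm x * 2 ^ pq x 0 = 2 - qm (gauss x) := by
  rw [qm_rec h0 h1, one_div_pow]
  field_simp

/-- The `k`-th convergent `p / q` and the value `m / 2 ^ s` of `?` at it. -/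
lemma conv (k : ℕ) : ∀ {x : ℝ}, 0 ≤ x → x ≤ 1 → Irrational x →
    ∃ (s p p' q q' m : ℕ) (ε : ℝ), psum x k = s + 1 ∧ (ε = 1 ∨ ε = -1) ∧
      ((p : ℝ) * q' - p' * q = 1 ∨ (p : ℝ) * q' - p' * q = -1) ∧ Odd m ∧ m ≤ 2 ^ s ∧
      1 ≤ p ∧ s + 1 ≤ q ∧ p ≤ Nat.fib (s + 1) ∧ q ≤ Nat.fib (s + 2) ∧
      x * (q + q' * gauss^[k + 1] x) = p + p' * gauss^[k + 1] x ∧
      qm x * 2 ^ (s + 1) = 2 * m + ε * qm (gauss^[k + 1] x) := by
  induction k with
  | zero =>
    intro x h0 h1 hx
    have hp := pos_of_irr h0 hx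
    have ha := pq_zero_pos hp h1
    obtain ⟨s, hs⟩ : ∃ s, pq x 0 = s + 1 := ⟨pq x 0 - 1, by omega⟩
    have h2 := gauss_eq hp
    have h3 := qm_rec' hp h1
    rw [hs] at h2 h3
    refine ⟨s, 1, 0, s + 1, 1, 1, -1, ?_, Or.inr rfl, Or.inl (by norm_num), odd_one,
      Nat.one_le_two_pow, le_rfl, le_rfl, ?_, le_fib s, ?_, ?_⟩
    · simpa [psum] using hs
    · exact Nat.fib_pos.2 (by omega)
    · simpa using h2
    · rw [h3]
      simp
      ring
  | succ k ih =>
    intro x h0 h1 hx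
    have hp := pos_of_irr h0 hx
    have ha := pq_zero_pos hp h1
    obtain ⟨s, p, p', q, q', m, ε, hs, hε, hd, hm, hms, hp1, hqs, hpf, hqf, hX, hQ⟩ :=
      ih gauss_mem.1 gauss_mem.2.le (irr_gauss hx)
    obtain ⟨a, hA⟩ : ∃ a, pq x 0 = a + 1 := ⟨pq x 0 - 1, by omega⟩
    have h2 := gauss_eq hp
    have h3 := qm_rec' hp h1
    rw [hA] at h2 h3
    have hle : m ≤ 2 ^ (s + 1) := hms.trans (Nat.pow_le_pow_right (by norm_num) (by omega))
    refine ⟨s + (a + 1), q, q', (a + 1) * q + p, (a + 1) * q' + p', 2 ^ (s + 1) - m, -ε,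
      ?_, ?_, ?_, ?_, ?_, by omega, ?_, ?_, ?_, ?_, ?_⟩
    · rw [psum_succ, hs, hA]; ring
    · rcases hε with h | h
      · right; rw [h]
      · left; rw [h]; norm_num
    · push_cast
      rcases hd with h | h
      · right; linear_combination -h
      · left; linear_combination -h
    · have : Even (2 ^ (s + 1)) := by
        rw [pow_succ]; exact even_two.mul_left _
      exact Nat.Even.sub_odd hle this hm
    · have : 2 ^ (s + 1) ≤ 2 ^ (s + (a + 1)) := Nat.pow_le_pow_right (by norm_num) (by omega)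
      omega
    · nlinarith
    · exact hqf.trans (Nat.fib_mono (by omega))
    · have h5 := fib_step a s
      have e : s + (a + 1) + 2 = s + a + 3 := by ring
      rw [e]
      calc (a + 1) * q + p ≤ (a + 1) * Nat.fib (s + 2) + Nat.fib (s + 1) := by gcongr
        _ ≤ _ := h5
    · rw [Function.iterate_succ_apply]
      push_cast at h2 ⊢
      linear_combination (q + q' * gauss^[k + 1] (gauss x)) * h2 - x * hX
    · rw [Function.iterate_succ_apply, Nat.cast_sub hle]
      push_cast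
      have e : s + (a + 1) + 1 = (a + 1) + (s + 1) := by ring
      rw [e, pow_add]
      linear_combination (2 ^ (s + 1) : ℝ) * h3 - hQ

lemma qm_bound (N : ℕ) : ∀ {x : ℝ}, 0 ≤ x → x ≤ 1 →
    -(4 * (1 / 2) ^ N) ≤ qm x ∧ qm x ≤ 1 + 4 * (1 / 2) ^ N := by
  induction N with
  | zero =>
    intro x h0 h1
    have h : |qm x| ≤ 4 := by
      unfold qm
      have h2 : HasSum (fun k => 2 * ((1 : ℝ) / 2) ^ k) 4 := by
        have := (hasSum_geometric_two).mul_left 2
        norm_num at this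
        simpa using this
      rw [← Real.norm_eq_abs]
      apply tsum_of_norm_bounded h2
      intro k
      rw [Real.norm_eq_abs]
      exact abs_term_le k h0 h1
    have := abs_le.1 h
    constructor <;> linarith [this.1, this.2]
  | succ N ih =>
    intro x h0 h1
    rcases eq_or_lt_of_le h0 with h | h
    · rw [← h, qm_zero]
      have : (0 : ℝ) < (1 / 2) ^ (N + 1) := by positivity
      constructor <;> linarith
    · obtain ⟨i1, i2⟩ := ih (x := gauss x) gauss_mem.1 gauss_mem.2.le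
      rw [qm_rec h h1]
      have h2 : ((1 : ℝ) / 2) ^ pq x 0 ≤ (1 / 2) ^ 1 :=
        pow_le_pow_of_le_one (by norm_num) (by norm_num) (pq_zero_pos h h1)
      have h3 : (0 : ℝ) < (1 / 2) ^ pq x 0 := by positivity
      have h4 : (0 : ℝ) < (1 / 2) ^ N := by positivity
      rw [pow_one] at h2
      rw [pow_succ]
      set b : ℝ := (1 / 2) ^ pq x 0
      set c : ℝ := (1 / 2) ^ N
      constructor
      · nlinarith
      · nlinarith

lemma qm_mem {x : ℝ} (h0 : 0 ≤ x) (h1 : x ≤ 1) : 0 ≤ qm x ∧ qm x ≤ 1 := by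
  have hlim : Filter.Tendsto (fun N : ℕ => 4 * ((1 : ℝ) / 2) ^ N) Filter.atTop (nhds 0) := by
    have := (tendsto_pow_atTop_nhds_zero_of_lt_one (r := (1 : ℝ) / 2)
      (by norm_num) (by norm_num)).const_mul 4
    simpa using this
  constructor
  · have h2 := hlim.neg
    rw [neg_zero] at h2
    exact le_of_tendsto h2 (Filter.Eventually.of_forall fun N => (qm_bound N h0 h1).1)
  · have h2 := hlim.const_add 1
    rw [add_zero] at h2
    exact ge_of_tendsto h2 (Filter.Eventually.of_forall fun N => (qm_bound N h0 h1).2)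

lemma sq_lt (t : ℕ) : (t + 5) * (t + 5) < 2 ^ (t + 5) := by
  induction t with
  | zero => decide
  | succ t ih =>
    have : 2 ^ (t + 1 + 5) = 2 * 2 ^ (t + 5) := by ring
    rw [this]
    nlinarith

/-- Partial quotients of a fixed point cannot grow too fast. -/
lemma growth {x : ℝ} (h0 : 0 ≤ x) (h1 : x ≤ 1) (hx : Irrational x) (hf : qm x = x) (k : ℕ)
    (h5 : 5 ≤ psum x k) : pq x (k + 1) * psum x k < 2 ^ psum x k := by
  by_contra hcon
  push Not at hcon
  obtain ⟨s, p, p', q, q', m, ε, hs, hε, hd, hm, hms, hp1, hqs, hpf, hqf, hX, hQ⟩ :=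
    conv k h0 h1 hx
  obtain ⟨t, rfl⟩ : ∃ t, s = t + 4 := ⟨s - 4, by omega⟩
  rw [hs] at hcon
  have hy := iter_irr hx (k + 1)
  obtain ⟨y0, y1⟩ := iter_mem h0 h1 (k + 1)
  set y := gauss^[k + 1] x with hyd
  have hy0 := pos_of_irr y0 hy
  have hpq : pq x (k + 1) = pq y 0 := rfl
  rw [hpq] at hcon
  set a := pq y 0 with had
  have ha1 : 1 ≤ a := pq_zero_pos hy0 y1
  have hay : (a : ℝ) * y ≤ 1 := by
    have := gauss_eq hy0
    nlinarith [(gauss_mem (x := y)).1]
  have hqy : qm y * 2 ^ a ≤ 2 := by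
    rw [qm_rec' hy0 y1]
    linarith [(qm_mem (x := gauss y) gauss_mem.1 gauss_mem.2.le).1]
  have hqy0 := (qm_mem y0 y1).1
  -- `q < 2 ^ s`
  have hq2 : q < 2 ^ (t + 4) := lt_of_le_of_lt hqf (fib_lt (t + 2))
  have hsq := sq_lt t
  have hlt : t + 5 < a := by
    by_contra hc
    push Not at hc
    have : a * (t + 5) ≤ (t + 5) * (t + 5) := by gcongr
    have e : t + 4 + 1 = t + 5 := rfl
    rw [e] at hcon
    omega
  -- `p 2 ^ s ≠ m q`
  have hne : (p : ℤ) * 2 ^ (t + 4) - m * q ≠ 0 := by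
    intro h
    have h' : p * 2 ^ (t + 4) = m * q := by
      have : (p : ℤ) * 2 ^ (t + 4) = m * q := by linarith
      exact_mod_cast this
    have hcop : Nat.Coprime (2 ^ (t + 4)) m :=
      Nat.Coprime.pow_left _ (Nat.coprime_two_left.2 hm)
    have hdvd : 2 ^ (t + 4) ∣ q := by
      apply hcop.dvd_of_dvd_mul_left
      rw [← h']
      exact Dvd.intro_left _ rfl
    have := Nat.le_of_dvd (by omega) hdvd
    omega
  have hone : (1 : ℝ) ≤ |(p : ℝ) * 2 ^ (t + 4) - m * q| := by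
    have := Int.one_le_abs hne
    exact_mod_cast this
  have hqpos : (0 : ℝ) < q := by exact_mod_cast (by omega : 0 < q)
  have hq'0 : (0 : ℝ) ≤ q' := by positivity
  have hden : (0 : ℝ) < q + q' * y := by positivity
  -- `|x q' - p'| ≤ 1 / q`
  have hb : |x * q' - p'| * q ≤ 1 := by
    have h6 : (x * q' - p') * (q + q' * y) = (p : ℝ) * q' - p' * q := by
      linear_combination (q' : ℝ) * hX
    have h7 : |x * q' - p'| * (q + q' * y) = 1 := by
      rw [← abs_of_pos hden, ← abs_mul, h6]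
      rcases hd with h | h <;> rw [h] <;> norm_num
    have h8 : 0 ≤ |x * q' - p'| := abs_nonneg _
    have h9 : 0 ≤ (q' : ℝ) * y := by positivity
    nlinarith
  rw [hf] at hQ
  have hD : 2 * ((p : ℝ) * 2 ^ (t + 4) - m * q) =
      2 ^ (t + 4 + 1) * y * (x * q' - p') + q * ε * qm y := by
    have e : (2 : ℝ) ^ (t + 4 + 1) = 2 * 2 ^ (t + 4) := by ring
    rw [e] at hQ ⊢
    linear_combination (-2 * 2 ^ (t + 4) : ℝ) * hX + (q : ℝ) * hQ
  have hεa : |ε| = 1 := by rcases hε with h | h <;> rw [h] <;> norm_num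
  have hmain : 2 * |(p : ℝ) * 2 ^ (t + 4) - m * q| ≤
      2 ^ (t + 4 + 1) * y * |x * q' - p'| + q * qm y := by
    calc 2 * |(p : ℝ) * 2 ^ (t + 4) - m * q| = |2 * ((p : ℝ) * 2 ^ (t + 4) - m * q)| := by
          rw [abs_mul, abs_two]
      _ = |2 ^ (t + 4 + 1) * y * (x * q' - p') + q * ε * qm y| := by rw [hD]
      _ ≤ |2 ^ (t + 4 + 1) * y * (x * q' - p')| + |q * ε * qm y| := abs_add_le _ _
      _ = 2 ^ (t + 4 + 1) * y * |x * q' - p'| + q * qm y := by
          rw [abs_mul, abs_mul, abs_mul, abs_mul, hεa, abs_of_pos hqpos, abs_of_nonneg hqy0,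
            abs_of_pos hy0, abs_of_pos (by positivity : (0 : ℝ) < 2 ^ (t + 4 + 1))]
          ring
  -- first term `≤ 1`
  have hT1 : 2 ^ (t + 4 + 1) * y * |x * q' - p'| ≤ 1 := by
    have c1 : (2 : ℝ) ^ (t + 4 + 1) ≤ a * (t + 4 + 1 : ℕ) := by exact_mod_cast hcon
    have c2 : ((t + 4 + 1 : ℕ) : ℝ) ≤ q := by exact_mod_cast hqs
    have c3 : 0 ≤ |x * q' - p'| := abs_nonneg _
    calc 2 ^ (t + 4 + 1) * y * |x * q' - p'|
        ≤ (a * (t + 4 + 1 : ℕ)) * y * |x * q' - p'| := by gcongr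
      _ ≤ (a * q) * y * |x * q' - p'| := by gcongr
      _ = (a * y) * (|x * q' - p'| * q) := by ring
      _ ≤ 1 * 1 := by
          apply mul_le_mul hay hb (by positivity) (by norm_num)
      _ = 1 := by norm_num
  -- second term `< 1`
  have hT2 : q * qm y < 1 := by
    have c1 : (2 : ℝ) * q < 2 ^ a := by
      have : 2 * q < 2 ^ a := by
        calc 2 * q < 2 * 2 ^ (t + 4) := by omega
          _ = 2 ^ (t + 5) := by ring
          _ ≤ 2 ^ a := Nat.pow_le_pow_right (by norm_num) hlt.le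
      exact_mod_cast this
    have c2 : (0 : ℝ) < 2 ^ a := by positivity
    by_contra hc
    push Not at hc
    have : (2 : ℝ) ^ a ≤ 2 * q := by
      calc (2 : ℝ) ^ a = 1 * 2 ^ a := by ring
        _ ≤ (q * qm y) * 2 ^ a := by gcongr
        _ = q * (qm y * 2 ^ a) := by ring
        _ ≤ q * 2 := by gcongr
        _ = 2 * q := by ring
    linarith
  linarith

lemma qm_one : qm 1 = 1 := by
  rw [qm_rec one_pos le_rfl]
  have h1 : gauss 1 = 0 := by simp [gauss]
  have h2 : pq 1 0 = 1 := by simp [pq]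
  rw [h1, h2, qm_zero]
  norm_num

lemma qm_half : qm (1 / 2) = 1 / 2 := by
  rw [qm_rec (by norm_num) (by norm_num)]
  have h1 : gauss (1 / 2) = 0 := by
    have : (1 : ℝ) / (1 / 2) = ((2 : ℤ) : ℝ) := by norm_num
    unfold gauss
    rw [this, Int.fract_intCast]
  have h2 : pq (1 / 2) 0 = 2 := by
    unfold pq
    simp only [Function.iterate_zero, id_eq]
    have : (1 : ℝ) / (1 / 2) = ((2 : ℕ) : ℝ) := by norm_num
    rw [this, Nat.floor_natCast]
  rw [h1, h2, qm_zero]
  norm_num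

theorem result :
    (qm 0 = 0 ∧ qm (1 / 2) = 1 / 2 ∧ qm 1 = 1) ∧
    ∀ x : ℝ, 0 ≤ x → x ≤ 1 → qm x = x → x ≠ 0 → x ≠ 1 / 2 → x ≠ 1 →
      Irrational x ∧ (∀ m n : ℕ, m ≠ n → gauss^[m] x ≠ gauss^[n] x) ∧
      ∀ k : ℕ, 5 ≤ psum x k → pq x (k + 1) * psum x k < 2 ^ psum x k := by
  refine ⟨⟨qm_zero, qm_half, qm_one⟩, ?_⟩
  intro x h0 h1 hf hx0 hx2 hx1
  have hirr : Irrational x := by
    by_contra hr
    exact hx2 (rat_fixed (lt_of_le_of_ne h0 hx0.symm) (lt_of_le_of_ne h1 hx1) hr hf)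
  have key : ∀ m n : ℕ, m < n → gauss^[m] x ≠ gauss^[n] x := by
    intro m n hmn he
    obtain ⟨r, hr⟩ := periodic_rat h0 h1 hirr hmn he
    rw [hf] at hr
    exact hirr ⟨r, hr.symm⟩
  refine ⟨hirr, ?_, fun k h5 => growth h0 h1 hirr hf k h5⟩
  intro m n hmn he
  rcases lt_or_gt_of_ne hmn with h | h
  · exact key m n h he
  · exact key n m h he.symm

end Pool.Agent.Results.MP_adc340_an.FixedPoints
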